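import Mathlib

/-!
Families of projective varieties over the affine line and birational trivializations.
-/

set_option autoImplicit false

namespace Pool.Agent.R832.BG

open Polynomial
open scoped TensorProduct

universe u

/-- polynomials in the six variables `x_0, ..., x_5` with coefficients in `R` -/
def Poly6 (R : Type u) [CommRing R] : Type u := MvPolynomial (Fin 6) R

noncomputable instance (R : Type u) [CommRing R] : CommRing (Poly6 R) :=
  @inferInstance (CommRing (MvPolynomial (Fin 6) R)) _

noncomputable instance (R : Type u) [CommRing R] : Algebra R (Poly6 R) :=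
  @inferInstance (Algebra R (MvPolynomial (Fin 6) R)) _

/-- the variable `x_5` -/
noncomputable def x5 (R : Type u) [CommRing R] : Poly6 R := (MvPolynomial.X 5 : MvPolynomial (Fin 6) R)

/-- `f` is homogeneous of degree `d` -/
def Homog {R : Type u} [CommRing R] (f : Poly6 R) (d : ℕ) : Prop :=
  MvPolynomial.IsHomogeneous (f : MvPolynomial (Fin 6) R) d

/-- a ring homomorphism `b : R → S` applied to the coefficients -/
noncomputable def mapPoly {R S : Type u} [CommRing R] [CommRing S] (b : R →+* S) :
    Poly6 R →+* Poly6 S :=
  (MvPolynomial.map b : MvPolynomial (Fin 6) R →+* MvPolynomial (Fin 6) S)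

/-- the ideal generated by `I` and `x_5 - 1` -/
noncomputable def chartIdeal {R : Type u} [CommRing R] (I : Ideal (Poly6 R)) : Ideal (Poly6 R) :=
  I ⊔ Ideal.span {x5 R - 1}

/-- The coordinate ring `R[x_0, ..., x_5] / (I, x_5 - 1)` of the open set `x_5 ≠ 0` of the closed
subscheme of the projective space `P^5` over `R` given by the homogeneous ideal `I` of
`R[x_0, ..., x_5]` -/
def Chart {R : Type u} [CommRing R] (I : Ideal (Poly6 R)) : Type u := Poly6 R ⧸ chartIdeal I

noncomputable instance {R : Type u} [CommRing R] (I : Ideal (Poly6 R)) : CommRing (Chart I) :=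
  @inferInstance (CommRing (Poly6 R ⧸ chartIdeal I)) _

noncomputable instance {R : Type u} [CommRing R] (I : Ideal (Poly6 R)) : Algebra R (Chart I) :=
  @inferInstance (Algebra R (Poly6 R ⧸ chartIdeal I)) _

/-- the ideal obtained from `I` by a ring homomorphism `b : R → S`: the ideal of the base change
of the closed subscheme of `P^5` given by `I` (for a point `b : R → k`: the ideal of the fibre
at `b`) -/
noncomputable def bc {R S : Type u} [CommRing R] [CommRing S] (b : R →+* S) (I : Ideal (Poly6 R)) :
    Ideal (Poly6 S) :=
  I.map (mapPoly b)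

lemma chartIdeal_le {R S : Type u} [CommRing R] [CommRing S] (b : R →+* S) (I : Ideal (Poly6 R)) :
    chartIdeal I ≤ (chartIdeal (bc b I)).comap (mapPoly b) := by
  refine sup_le (le_trans Ideal.le_comap_map (Ideal.comap_mono le_sup_left)) ?_
  rw [Ideal.span_le]
  rintro f (rfl : f = _)
  have h : mapPoly b (x5 R - 1) = x5 S - 1 := by
    rw [map_sub, map_one]
    congr 1
    exact MvPolynomial.map_X b 5
  rw [SetLike.mem_coe, Ideal.mem_comap, h]
  exact Ideal.mem_sup_right (Ideal.subset_span rfl)

/-- restriction of the functions on the chart `x_5 ≠ 0` to the base change (to the fibre) -/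
noncomputable def red {R S : Type u} [CommRing R] [CommRing S] (b : R →+* S)
    (I : Ideal (Poly6 R)) : Chart I →+* Chart (bc b I) :=
  Ideal.quotientMap (chartIdeal (bc b I)) (mapPoly b) (chartIdeal_le b I)

/-- the functions on the chart which are not zero divisors on the fibre at `b` (if the fibre is
integral: which do not vanish identically on the fibre) -/
noncomputable def nonvan {R S : Type u} [CommRing R] [CommRing S] (b : R →+* S)
    (I : Ideal (Poly6 R)) : Submonoid (Chart I) :=
  (nonZeroDivisors (Chart (bc b I))).comap (red b I)

/-- If the fibre at `b` is integral and not contained in `x_5 = 0`: the local ring of the total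
space at the generic point of the fibre at `b` -/
def LocRing {R S : Type u} [CommRing R] [CommRing S] (b : R →+* S) (I : Ideal (Poly6 R)) :
    Type u :=
  Localization (nonvan b I)

noncomputable instance {R S : Type u} [CommRing R] [CommRing S] (b : R →+* S)
    (I : Ideal (Poly6 R)) : CommRing (LocRing b I) :=
  @inferInstance (CommRing (Localization (nonvan b I))) _

noncomputable instance {R S : Type u} [CommRing R] [CommRing S] (b : R →+* S)
    (I : Ideal (Poly6 R)) : Algebra R (LocRing b I) :=
  @inferInstance (Algebra R (Localization (nonvan b I))) _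

/-- the function field of the projective variety given by the homogeneous prime ideal `P` not
containing `x_5` -/
def FunField {k : Type u} [Field k] (P : Ideal (Poly6 k)) : Type u := FractionRing (Chart P)

noncomputable instance {k : Type u} [Field k] (P : Ideal (Poly6 k)) : CommRing (FunField P) :=
  @inferInstance (CommRing (FractionRing (Chart P))) _

noncomputable instance {k : Type u} [Field k] (P : Ideal (Poly6 k)) : Algebra k (FunField P) :=
  @inferInstance (Algebra k (FractionRing (Chart P))) _

/-- the ideal `I` is generated by homogeneous polynomials -/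
def IsHomog {R : Type u} [CommRing R] (I : Ideal (Poly6 R)) : Prop :=
  ∃ S : Set (Poly6 R), (∀ f ∈ S, ∃ d : ℕ, Homog f d) ∧ I = Ideal.span S

/-- the quotient by `I` is flat over the base -/
def IsFlat {R : Type u} [CommRing R] (I : Ideal (Poly6 R)) : Prop := Module.Flat R (Poly6 R ⧸ I)

/-- the ideal of the fibre at the point `c` of the affine line -/
noncomputable def fib {k : Type u} [Field k] (I : Ideal (Poly6 k[X])) (c : k) : Ideal (Poly6 k) :=
  bc (evalRingHom c) I

/-- two projective varieties are birational: their function fields are isomorphic over `k` -/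
def Birational {k : Type u} [Field k] (P Q : Ideal (Poly6 k)) : Prop :=
  Nonempty (FunField P ≃ₐ[k] FunField Q)

/-- The homogeneous ideal `I` of `k[X][x_0, ..., x_5]` gives a projective flat family
`X ⊆ A^1 × P^5` over the affine line, all fibres of which are irreducible varieties (integral
schemes, given by homogeneous prime ideals; none is contained in `x_5 = 0`), all birational to each
other. -/
structure IsFamily {k : Type u} [Field k] (I : Ideal (Poly6 k[X])) : Prop where
  homog : IsHomog I
  flat : IsFlat I
  prime : ∀ c : k, (fib I c).IsPrime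
  notMem : ∀ c : k, x5 k ∉ fib I c
  birational : ∀ c d : k, Birational (fib I c) (fib I d)

/-- the functions on the open subset `g ≠ 0` of the affine line -/
def Away {k : Type u} [Field k] (g : k[X]) : Type u := Localization.Away g

noncomputable instance {k : Type u} [Field k] (g : k[X]) : CommRing (Away g) :=
  @inferInstance (CommRing (Localization.Away g)) _

noncomputable instance {k : Type u} [Field k] (g : k[X]) : Algebra k[X] (Away g) :=
  @inferInstance (Algebra k[X] (Localization.Away g)) _

/-- `Spec R'` is irreducible (and reduced) and there is a finite surjective morphism from `Spec R'`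
to an open neighbourhood `g ≠ 0` of `b` in the affine line -/
def IsCover {k : Type u} [Field k] (b : k) (R' : Type u) [CommRing R'] [Algebra k[X] R'] : Prop :=
  IsDomain R' ∧ ∃ g : k[X], g.eval b ≠ 0 ∧ ∃ φ : Away g →ₐ[k[X]] R',
    φ.toRingHom.Finite ∧ Function.Injective φ

/-- for a `k`-algebra `R'` with a point `b' : R' → k` and a field `K₀ ⊇ k`, the homomorphism
`R' ⊗ K₀ → K₀` given by `b'` -/
noncomputable def atPt {k : Type u} [Field k] {R' : Type u} [CommRing R'] [Algebra k R']
    (b' : R' →ₐ[k] k) (K₀ : Type u) [Field K₀] [Algebra k K₀] : R' ⊗[k] K₀ →ₐ[k] K₀ :=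
  Algebra.TensorProduct.lift ((Algebra.ofId k K₀).comp b') (AlgHom.id k K₀)
    (fun _ _ => Commute.all _ _)

/-- the elements of `R' ⊗ K₀` which are not in the kernel of `R' ⊗ K₀ → K₀` -/
noncomputable def unitsAt {k : Type u} [Field k] {R' : Type u} [CommRing R'] [Algebra k R']
    (b' : R' →ₐ[k] k) (K₀ : Type u) [Field K₀] [Algebra k K₀] : Submonoid (R' ⊗[k] K₀) :=
  (nonZeroDivisors K₀).comap (atPt b' K₀)

/-- The localization of `R' ⊗ K₀` at the kernel of `R' ⊗ K₀ → K₀` given by the point `b'`. If `K₀`
is the function field of a variety `X_0` and `B' = Spec R'`, this is the local ring of `B' × X_0` at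
the generic point of `{b'} × X_0`. -/
def ConstRing {k : Type u} [Field k] {R' : Type u} [CommRing R'] [Algebra k R']
    (b' : R' →ₐ[k] k) (K₀ : Type u) [Field K₀] [Algebra k K₀] : Type u :=
  Localization (unitsAt b' K₀)

noncomputable instance {k : Type u} [Field k] {R' : Type u} [CommRing R'] [Algebra k R']
    (b' : R' →ₐ[k] k) (K₀ : Type u) [Field K₀] [Algebra k K₀] : CommRing (ConstRing b' K₀) :=
  @inferInstance (CommRing (Localization (unitsAt b' K₀))) _

noncomputable instance {k : Type u} [Field k] {R' : Type u} [CommRing R'] [Algebra k R']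
    (b' : R' →ₐ[k] k) (K₀ : Type u) [Field K₀] [Algebra k K₀] : Algebra R' (ConstRing b' K₀) :=
  @inferInstance (Algebra R' (Localization (unitsAt b' K₀))) _

/-- the ideal of `X ×_B B'` for `B' = Spec R'` -/
noncomputable def bcIdeal {k : Type u} [Field k] (I : Ideal (Poly6 k[X])) (R' : Type u)
    [CommRing R'] [Algebra k[X] R'] : Ideal (Poly6 R') :=
  bc (algebraMap k[X] R') I

/-- the local rings of `X ×_B B'` at the generic point of the fibre at `b'` and of `B' × X_0` at the
generic point of `{b'} × X_0` are isomorphic over `B'`, `K₀` being the function field of `X_0` -/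
def LocIso {k : Type u} [Field k] (I : Ideal (Poly6 k[X])) (K₀ : Type u) [Field K₀] [Algebra k K₀]
    {R' : Type u} [CommRing R'] [Algebra k[X] R'] [Algebra k R'] (b' : R' →ₐ[k] k) : Prop :=
  Nonempty (LocRing b'.toRingHom (bcIdeal I R') ≃ₐ[R'] ConstRing b' K₀)

/-- The family given by `I` has a birational trivialization at the point `b` of the affine line:
there are a finite surjective morphism of `B' = Spec R'` to an open neighbourhood of `b`, a point
`b'` of `B'` over `b` and an isomorphism over `B'` of the local rings of `X ×_B B'` and of
`B' × X_0` at the generic points of the fibres at `b'`. Here `K₀` is the function field of `X_0`. -/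
def HasTriv {k : Type u} [Field k] (I : Ideal (Poly6 k[X])) (b : k)
    (K₀ : Type u) [Field K₀] [Algebra k K₀] : Prop :=
  ∃ (R' : Type u) (_ : CommRing R') (_ : Algebra k[X] R') (_ : Algebra k R')
    (_ : IsScalarTower k k[X] R'), IsCover b R' ∧ ∃ b' : R' →ₐ[k] k,
      (∀ f : k[X], b' (algebraMap k[X] R' f) = f.eval b) ∧ LocIso I K₀ b'

end Pool.Agent.R832.BG
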