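import Pool.Agent.R832.BG.Defs
import Pool.Agent.R832.BT.Non
import Pool.Agent.R832.BF.Non

set_option autoImplicit false

namespace Pool.Agent.R832.BG

open Polynomial
open scoped TensorProduct

universe u

variable {k : Type u} [Field k]

lemma family_of {I : Ideal (MvPolynomial (Fin 6) k[X])} (h : Pool.Agent.R832.BT.IsFamily I) :
    IsFamily (I : Ideal (Poly6 k[X])) where
  homog := h.homogeneous
  flat := h.flat
  prime c := h.fib_prime c
  notMem c := h.fib_ne c
  birational c d := h.birational c d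

lemma triv_of {I : Ideal (MvPolynomial (Fin 6) k[X])} (b : k) (K₀ : Type u) [Field K₀]
    [Algebra k K₀] (h : HasTriv (I : Ideal (Poly6 k[X])) b K₀) :
    Nonempty (Pool.Agent.R832.BT.Trivialization I b K₀) := by
  obtain ⟨R', i1, i2, i3, i4, ⟨i5, g, hg, φ, hφ, hφ'⟩, b', hb, ⟨e⟩⟩ := h
  exact ⟨{ g := g, mem := hg, R' := R', commRing := i1, isDomain := i5, algebra := i3,
           algebraPoly := i2, tower := i4, φ := φ, finite := hφ, injective := hφ', b' := b',
           comp_eq := RingHom.ext hb, iso := e }⟩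

theorem main (k : Type u) [Field k] [IsAlgClosed k] : ∃ (I : Ideal (Poly6 k[X])) (b : k),
    IsFamily I ∧ ∀ (K₀ : Type u) [Field K₀] [Algebra k K₀],
      Nonempty (K₀ ≃ₐ[k] FunField (fib I b)) → ¬ HasTriv I b K₀ := by
  by_cases h3 : (3 : k) = 0
  · have h5 : (5 : k) ≠ 0 := by
      intro h5
      have : (1 : k) = 2 * 3 - 5 := by norm_num
      rw [h3, h5] at this
      simp at this
    refine ⟨Pool.Agent.R832.BF.J (X : k[X]), 0, family_of (Pool.Agent.R832.BF.isFamily h5), ?_⟩
    rintro K₀ _ _ ⟨E⟩ h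
    obtain ⟨T⟩ := triv_of 0 K₀ h
    exact (Pool.Agent.R832.BF.no_trivialization h5 K₀ E).false T
  · refine ⟨Pool.Agent.R832.BT.J (X : k[X]), 0, family_of (Pool.Agent.R832.BT.isFamily h3), ?_⟩
    rintro K₀ _ _ ⟨E⟩ h
    obtain ⟨T⟩ := triv_of 0 K₀ h
    exact (Pool.Agent.R832.BT.no_trivialization h3 K₀ E).false T

end Pool.Agent.R832.BG
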